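import Mathlib

set_option autoImplicit false

namespace Pool.Agent.Lib.MP_6b2d39_agArr

/-- rank of the row `b` among the rows `< n`, ordered by `e b + p * b` (ties count against `b`) -/
def rk (n : ℕ) (e : ℕ → ℤ) (p : ℤ) (b : ℕ) : ℕ :=
  ((Finset.range n).filter fun c => c ≠ b ∧ e c + p * c ≤ e b + p * b).card

/-- Arrangement certificate: the points of `J`, with multiplicities `m`, serve the rows
`0, …, n-1` with demands `D`. -/
def Cert {ι : Type} (m : ι → ℕ) (J : Finset ι) (n : ℕ) (D : ℕ → ℤ) : Prop :=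
  ∃ (e : ℕ → ℤ) (p : ι → ℤ), ∀ b < n, D b ≤ ∑ j ∈ J, ((m j - rk n e (p j) b : ℕ) : ℤ)

/-- certificate with `K` points of multiplicity `μ` -/
def HCert (μ K n : ℕ) (D : ℕ → ℤ) : Prop :=
  Cert (fun _ : Fin K => μ) Finset.univ n D

end Pool.Agent.Lib.MP_6b2d39_agArr
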