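import Pool.Agent.Lib.MP_6b2d39_agArr.Defs

set_option autoImplicit false

namespace Pool.Agent.Lib.MP_6b2d39_agArr

theorem sum_tri (m : ℕ) : ∑ r ∈ Finset.range m, (m - r) = m * (m + 1) / 2 := by
  have h : 2 * ∑ r ∈ Finset.range m, (m - r) = m * (m + 1) := by
    induction m with
    | zero => simp
    | succ m ih =>
      rw [Finset.sum_range_succ']
      simp only [Nat.add_sub_add_right, Nat.sub_zero]
      rw [mul_add, ih]
      ring
  omega

theorem sum_tri' (m t : ℕ) : ∑ r ∈ Finset.range (m + t), (m - r) = m * (m + 1) / 2 := by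
  induction t with
  | zero => exact sum_tri m
  | succ t ih =>
    rw [← add_assoc, Finset.sum_range_succ, ih]
    omega

/-- T7 (Greedy.lean) -/
theorem greedy {m L' : ℕ} (hm : m ≤ L') (D : ℕ → ℤ) (hpos : ∀ b < L', 1 ≤ D b)
    (hanti : ∀ b, b + 1 < L' → D (b + 1) + 1 ≤ D b) :
    ∃ (L : ℕ) (ρ : ℕ → ℕ), L ≤ L' ∧ (∀ b < L', ρ b < L') ∧
      (∀ b < L', ∀ c < L', ρ b = ρ c → b = c) ∧
      (∀ b c, b < c → c < L → ρ c < ρ b) ∧
      (∀ b, L ≤ b → b < L' → D b = ((m - ρ b : ℕ) : ℤ)) ∧
      (∀ b < L, (m : ℤ) < D b) ∧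
      (∀ b < L, b + m < L' → m ≤ ρ b) ∧
      (∀ b, L ≤ b → b < L' → D b ≤ m) ∧
      ∑ b ∈ Finset.range L', ((m - ρ b : ℕ) : ℤ) = (m * (m + 1) / 2 : ℕ) := by
  classical
  have hstrict : ∀ b t : ℕ, b + t < L' → D (b + t) + t ≤ D b := by
    intro b t
    induction t with
    | zero => intro _; simp
    | succ t ih =>
      intro h
      have h1 := ih (by omega)
      have h2 := hanti (b + t) (by omega)
      rw [← add_assoc]
      push_cast
      linarith
  have hex : ∃ b, b = L' ∨ D b ≤ m := ⟨L', Or.inl rfl⟩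
  obtain ⟨L, hLdef⟩ : ∃ L, L = Nat.find hex := ⟨_, rfl⟩
  have hLL : L ≤ L' := by
    rw [hLdef]
    exact Nat.find_min' hex (Or.inl rfl)
  have hlow : ∀ b < L, (m : ℤ) < D b := by
    intro b hb
    rw [hLdef] at hb
    have := Nat.find_min hex hb
    push Not at this
    exact this.2
  have hhigh : ∀ b, L ≤ b → b < L' → D b ≤ m := by
    intro b h1 h2
    have h3 : L = L' ∨ D L ≤ m := by
      rw [hLdef]
      exact Nat.find_spec hex
    rcases h3 with h3 | h3
    · omega
    · obtain ⟨t, rfl⟩ : ∃ t, b = L + t := ⟨b - L, by omega⟩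
      have := hstrict L t h2
      omega
  set f : ℕ → ℕ := fun b => ((m : ℤ) - D b).toNat with hf
  have hfspec : ∀ b, L ≤ b → b < L' → (f b : ℤ) = m - D b := by
    intro b h1 h2
    have := hhigh b h1 h2
    simp only [hf]
    omega
  have hfinj : ∀ b, L ≤ b → b < L' → ∀ c, L ≤ c → c < L' → f b = f c → b = c := by
    intro b h1 h2 c h3 h4 h
    have e1 := hfspec b h1 h2
    have e2 := hfspec c h3 h4
    rcases lt_trichotomy b c with hlt | heq | hgt
    · obtain ⟨t, rfl⟩ : ∃ t, c = b + t := ⟨c - b, by omega⟩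
      have := hstrict b t h4
      omega
    · exact heq
    · obtain ⟨t, rfl⟩ : ∃ t, b = c + t := ⟨b - c, by omega⟩
      have := hstrict c t h2
      omega
  have hflt : ∀ b, L ≤ b → b < L' → f b < m := by
    intro b h1 h2
    have e1 := hfspec b h1 h2
    have := hpos b h2
    omega
  set I := (Finset.Ico L L').image f with hI
  have hIcard : I.card = L' - L := by
    rw [hI, Finset.card_image_of_injOn, Nat.card_Ico]
    intro b hb c hc h
    simp only [Finset.coe_Ico, Set.mem_Ico] at hb hc
    exact hfinj b hb.1 hb.2 c hc.1 hc.2 h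
  have hIsub : I ⊆ Finset.range L' := by
    intro x hx
    simp only [hI, Finset.mem_image, Finset.mem_Ico] at hx
    obtain ⟨b, ⟨h1, h2⟩, rfl⟩ := hx
    have := hflt b h1 h2
    exact Finset.mem_range.2 (by omega)
  set S := Finset.range L' \ I with hS
  have hScard : S.card = L := by
    rw [hS, Finset.card_sdiff_of_subset hIsub, Finset.card_range, hIcard]
    omega
  set ρ : ℕ → ℕ := fun b => if h : b < L then S.orderEmbOfFin hScard ⟨L - 1 - b, by omega⟩
    else f b with hρ
  have hρlow : ∀ b (h : b < L), ρ b = S.orderEmbOfFin hScard ⟨L - 1 - b, by omega⟩ := by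
    intro b h
    simp only [hρ, dif_pos h]
  have hρhigh : ∀ b, L ≤ b → ρ b = f b := by
    intro b h
    simp only [hρ, dif_neg (not_lt.2 h)]
  have hρS : ∀ b, b < L → ρ b ∈ S := by
    intro b h
    rw [hρlow b h]
    exact Finset.orderEmbOfFin_mem _ _ _
  have hρI : ∀ b, L ≤ b → b < L' → ρ b ∈ I := by
    intro b h1 h2
    rw [hρhigh b h1, hI]
    exact Finset.mem_image_of_mem f (Finset.mem_Ico.2 ⟨h1, h2⟩)
  have hdis : ∀ x, x ∈ S → x ∈ I → False := by
    intro x hx hx'
    exact (Finset.mem_sdiff.1 hx).2 hx'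
  have hρlt : ∀ b < L', ρ b < L' := by
    intro b hb
    rcases lt_or_ge b L with h | h
    · have := (Finset.mem_sdiff.1 (hρS b h)).1
      exact Finset.mem_range.1 this
    · exact Finset.mem_range.1 (hIsub (hρI b h hb))
  have hρinj : ∀ b < L', ∀ c < L', ρ b = ρ c → b = c := by
    intro b hb c hc h
    rcases lt_or_ge b L with h1 | h1 <;> rcases lt_or_ge c L with h2 | h2
    · rw [hρlow b h1, hρlow c h2] at h
      have h3 := (S.orderEmbOfFin hScard).injective h
      have h4 := congrArg Fin.val h3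
      simp only at h4
      omega
    · exfalso
      refine hdis _ (hρS b h1) ?_
      rw [h]
      exact hρI c h2 hc
    · exfalso
      refine hdis _ (hρS c h2) ?_
      rw [← h]
      exact hρI b h1 hb
    · rw [hρhigh b h1, hρhigh c h2] at h
      exact hfinj b h1 hb c h2 hc h
  have hρanti : ∀ b c, b < c → c < L → ρ c < ρ b := by
    intro b c h1 h2
    rw [hρlow b (by omega), hρlow c h2]
    apply (S.orderEmbOfFin hScard).strictMono
    rw [Fin.lt_def]
    simp only
    omega
  refine ⟨L, ρ, hLL, hρlt, hρinj, hρanti, ?_, hlow, ?_, hhigh, ?_⟩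
  · intro b h1 h2
    have e1 := hfspec b h1 h2
    rw [hρhigh b h1]
    have := hpos b h2
    omega
  · intro b hb hbm
    by_contra hcon
    push Not at hcon
    have h1 : (Finset.Ico b L').image ρ ⊆ Finset.range m := by
      intro x hx
      simp only [Finset.mem_image, Finset.mem_Ico] at hx
      obtain ⟨c, ⟨h1, h2⟩, rfl⟩ := hx
      rw [Finset.mem_range]
      rcases lt_or_ge c L with h3 | h3
      · rcases Nat.eq_or_lt_of_le h1 with h4 | h4
        · rw [← h4]; exact hcon
        · exact (hρanti b c h4 h3).trans hcon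
      · rw [hρhigh c h3]
        exact hflt c h3 h2
    have h2 := Finset.card_le_card h1
    rw [Finset.card_image_of_injOn, Nat.card_Ico, Finset.card_range] at h2
    · omega
    · intro c hc c' hc' h
      simp only [Finset.coe_Ico, Set.mem_Ico] at hc hc'
      exact hρinj c hc.2 c' hc'.2 h
  · have hinj : Set.InjOn ρ (Finset.range L' : Set ℕ) := by
      intro b hb c hc h
      simp only [Finset.coe_range, Set.mem_Iio] at hb hc
      exact hρinj b hb c hc h
    have himg : (Finset.range L').image ρ = Finset.range L' := by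
      apply Finset.eq_of_subset_of_card_le
      · intro x hx
        simp only [Finset.mem_image, Finset.mem_range] at hx
        obtain ⟨b, hb, rfl⟩ := hx
        exact Finset.mem_range.2 (hρlt b hb)
      · rw [Finset.card_image_of_injOn hinj]
    rw [← Nat.cast_sum]
    congr 1
    have h1 : ∑ b ∈ Finset.range L', (m - ρ b) = ∑ r ∈ (Finset.range L').image ρ, (m - r) :=
      (Finset.sum_image hinj).symm
    rw [h1, himg]
    obtain ⟨t, rfl⟩ : ∃ t, L' = m + t := ⟨L' - m, by omega⟩
    exact sum_tri' m t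

end Pool.Agent.Lib.MP_6b2d39_agArr
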