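import Pool.Agent.Lib.MP_6b2d39_agArr.Defs

/-!
Task A2 (T2): superposition of arrangement certificates at two scales.
-/

set_option autoImplicit false

namespace Pool.Agent.Lib.MP_6b2d39_agArr

section cert

variable {ι : Type} [DecidableEq ι]

/-- T2 (Scale.lean) -/
theorem cert_scale {m : ι → ℕ} {J J0 : Finset ι} (hJ : Disjoint J J0) {L L' : ℕ} (hL : L ≤ L')
    {D D' : ℕ → ℤ} (h : Cert m J L D') (E : ℕ → ℤ) (P : ι → ℤ) (hE0 : ∀ b < L, E b = 0)
    (hE1 : ∀ b, L ≤ b → b < L' → 0 < E b)
    (hinj : ∀ j ∈ J0, ∀ b < L', ∀ c < L', E b + P j * b = E c + P j * c → b = c)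
    (h1 : ∀ b < L, D b ≤ D' b + ∑ j ∈ J0, ((m j - rk L' E (P j) b : ℕ) : ℤ))
    (h2 : ∀ b, L ≤ b → b < L' → D b ≤ ∑ j ∈ J0, ((m j - rk L' E (P j) b : ℕ) : ℤ) +
      ∑ j ∈ J, ((m j - (L' - 1) : ℕ) : ℤ)) :
    Cert m (J ∪ J0) L' D := by
  classical
  obtain ⟨e, p, hep⟩ := h
  -- the scale
  set K : ℤ := 1 + 2 * ∑ b ∈ Finset.range L, |e b| + (∑ j ∈ J, |p j|) * L' with hK
  have hsum0 : 0 ≤ ∑ b ∈ Finset.range L, |e b| := Finset.sum_nonneg fun b _ => abs_nonneg _
  have hsum1 : 0 ≤ (∑ j ∈ J, |p j|) * L' :=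
    mul_nonneg (Finset.sum_nonneg fun b _ => abs_nonneg _) (by positivity)
  have he : ∀ b < L, |e b| ≤ ∑ b ∈ Finset.range L, |e b| := fun b hb =>
    Finset.single_le_sum (f := fun b => |e b|) (fun b _ => abs_nonneg _) (Finset.mem_range.2 hb)
  have hp : ∀ j ∈ J, |p j| ≤ ∑ j ∈ J, |p j| := fun j hj =>
    Finset.single_le_sum (f := fun j => |p j|) (fun b _ => abs_nonneg _) hj
  set δ : ℕ → ℤ := fun b => if b < L then e b else 0 with hδ
  have hδb : ∀ b, |δ b| ≤ ∑ b ∈ Finset.range L, |e b| := by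
    intro b
    simp only [hδ]
    split_ifs with hb
    · exact he b hb
    · simpa using hsum0
  refine ⟨fun b => K * E b + δ b, fun j => if j ∈ J0 then K * P j else p j, ?_⟩
  -- the ranks
  have hrk0 : ∀ j ∈ J0, ∀ b < L', rk L' (fun b => K * E b + δ b) (K * P j) b = rk L' E (P j) b := by
    intro j hj b hb
    unfold rk
    congr 1
    refine Finset.filter_congr fun c hc => ?_
    rw [Finset.mem_range] at hc
    refine and_congr_right fun hcb => ?_
    have hne : E c + P j * c ≠ E b + P j * b := fun h => hcb (hinj j hj c hc b hb h)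
    have b1 := abs_le.1 (hδb b)
    have b2 := abs_le.1 (hδb c)
    constructor
    · intro h
      by_contra hlt
      have h3 : E b + P j * b + 1 ≤ E c + P j * c := by omega
      have h4 : K * (E b + P j * b + 1) ≤ K * (E c + P j * c) :=
        mul_le_mul_of_nonneg_left h3 (by linarith)
      nlinarith
    · intro h
      have h3 : E c + P j * c + 1 ≤ E b + P j * b := by omega
      have h4 : K * (E c + P j * c + 1) ≤ K * (E b + P j * b) :=
        mul_le_mul_of_nonneg_left h3 (by linarith)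
      nlinarith
  have hrk1 : ∀ j ∈ J, ∀ b < L, rk L' (fun b => K * E b + δ b) (p j) b = rk L e (p j) b := by
    intro j hj b hb
    unfold rk
    congr 1
    ext c
    simp only [Finset.mem_filter, Finset.mem_range]
    have hδ' : δ b = e b := by simp [hδ, hb]
    constructor
    · rintro ⟨hc, hcb, hle⟩
      by_cases hcL : c < L
      · have hδc : δ c = e c := by simp [hδ, hcL]
        rw [hE0 c hcL, hE0 b hb, hδ', hδc] at hle
        exact ⟨hcL, hcb, by linarith⟩
      · exfalso
        push Not at hcL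
        have hδc : δ c = 0 := by simp [hδ, hcL]
        rw [hE0 b hb, hδ', hδc] at hle
        have h3 := hE1 c hcL hc
        have h4 : K * 1 ≤ K * E c := mul_le_mul_of_nonneg_left (by omega) (by linarith)
        have h5 := (abs_le.1 (he b hb)).2
        have h6 : p j * b - p j * c ≤ (∑ j ∈ J, |p j|) * L' := by
          have h7 : (p j * b - p j * c) ≤ |p j| * |(b : ℤ) - c| := by
            rw [← abs_mul, mul_sub]
            exact le_abs_self _
          have h8 : |(b : ℤ) - c| ≤ L' := by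
            rw [abs_le]; constructor <;> omega
          exact h7.trans (mul_le_mul (hp j hj) h8 (abs_nonneg _)
            (Finset.sum_nonneg fun b _ => abs_nonneg _))
        linarith
    · rintro ⟨hc, hcb, hle⟩
      have hδc : δ c = e c := by simp [hδ, hc]
      refine ⟨by omega, hcb, ?_⟩
      rw [hE0 c hc, hE0 b hb, hδ', hδc]
      linarith
  have hrk2 : ∀ j, ∀ b < L', rk L' (fun b => K * E b + δ b) (p j) b ≤ L' - 1 := by
    intro j b hb
    unfold rk
    have h3 : ((Finset.range L').filter fun c => c ≠ b ∧ (fun b => K * E b + δ b) c + p j * c ≤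
        (fun b => K * E b + δ b) b + p j * b) ⊆ (Finset.range L').erase b := by
      intro c hc
      rw [Finset.mem_filter] at hc
      exact Finset.mem_erase.2 ⟨hc.2.1, hc.1⟩
    refine (Finset.card_le_card h3).trans ?_
    rw [Finset.card_erase_of_mem (Finset.mem_range.2 hb), Finset.card_range]
  intro b hb
  have hs : ∑ j ∈ J ∪ J0, ((m j - rk L' (fun b => K * E b + δ b)
      (if j ∈ J0 then K * P j else p j) b : ℕ) : ℤ) =
      ∑ j ∈ J, ((m j - rk L' (fun b => K * E b + δ b) (p j) b : ℕ) : ℤ) +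
      ∑ j ∈ J0, ((m j - rk L' E (P j) b : ℕ) : ℤ) := by
    rw [Finset.sum_union hJ]
    congr 1
    · refine Finset.sum_congr rfl fun j hj => ?_
      rw [if_neg (Finset.disjoint_left.1 hJ hj)]
    · refine Finset.sum_congr rfl fun j hj => ?_
      rw [if_pos hj, hrk0 j hj b hb]
  rw [hs]
  by_cases hbL : b < L
  · have h3 : ∑ j ∈ J, ((m j - rk L' (fun b => K * E b + δ b) (p j) b : ℕ) : ℤ) =
        ∑ j ∈ J, ((m j - rk L e (p j) b : ℕ) : ℤ) :=
      Finset.sum_congr rfl fun j hj => by rw [hrk1 j hj b hbL]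
    rw [h3]
    have := h1 b hbL
    have := hep b hbL
    linarith
  · push Not at hbL
    have h3 : ∑ j ∈ J, ((m j - (L' - 1) : ℕ) : ℤ) ≤
        ∑ j ∈ J, ((m j - rk L' (fun b => K * E b + δ b) (p j) b : ℕ) : ℤ) := by
      refine Finset.sum_le_sum fun j _ => ?_
      have := hrk2 j b hb
      have h4 : m j - (L' - 1) ≤ m j - rk L' (fun b => K * E b + δ b) (p j) b := by omega
      exact_mod_cast h4
    have := h2 b hbL hb
    linarith

end cert

end Pool.Agent.Lib.MP_6b2d39_agArr
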