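import Pool.Agent.Lib.MP_6b2d39_agArr.Scale

set_option autoImplicit false

namespace Pool.Agent.Lib.MP_6b2d39_agArr

section cert

variable {ι : Type} [DecidableEq ι]

/-- number of rows below `L` with smaller rank -/
def tA (ρ : ℕ → ℕ) (L x : ℕ) : ℕ := ((Finset.range L).filter fun b => ρ b < ρ x).card

/-- number of rows below `L'` with smaller rank -/
def cA (ρ : ℕ → ℕ) (L' x : ℕ) : ℕ := ((Finset.range L').filter fun b => ρ b < ρ x).card

/-- the heights used in step A -/
def EA (ρ : ℕ → ℕ) (L L' x : ℕ) : ℤ :=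
  if x < L then 0 else ((L' : ℤ) + 2) * ((x : ℤ) - L + tA ρ L x) + 1 + cA ρ L' x

theorem cA_le (ρ : ℕ → ℕ) (L' x : ℕ) : cA ρ L' x ≤ L' := by
  unfold cA
  exact (Finset.card_filter_le _ _).trans (by simp)

theorem theta_lt {ρ : ℕ → ℕ} {L L' : ℕ} (hanti : ∀ b c, b < c → c < L → ρ c < ρ b)
    {x y : ℕ} (hx : x < L') (_hy : y < L') (hxy : ρ x < ρ y) :
    EA ρ L L' x + -((L' : ℤ) + 2) * x < EA ρ L L' y + -((L' : ℤ) + 2) * y := by
  have hcx := cA_le ρ L' x
  have hcx' : (cA ρ L' x : ℤ) ≤ L' := by exact_mod_cast hcx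
  have hS : (0 : ℤ) < (L' : ℤ) + 2 := by positivity
  unfold EA
  by_cases hxL : x < L
  · by_cases hyL : y < L
    · -- both below
      rw [if_pos hxL, if_pos hyL]
      have hyx : y < x := by
        rcases lt_trichotomy x y with h | h | h
        · exact absurd (hanti x y h hyL) (by omega)
        · subst h; omega
        · exact h
      have : (y : ℤ) < x := by exact_mod_cast hyx
      nlinarith
    · rw [if_pos hxL, if_neg hyL]
      have ht : L - x ≤ tA ρ L y := by
        unfold tA
        have hsub : Finset.Ico x L ⊆ (Finset.range L).filter fun b => ρ b < ρ y := by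
          intro b hb
          rw [Finset.mem_Ico] at hb
          rw [Finset.mem_filter, Finset.mem_range]
          refine ⟨hb.2, ?_⟩
          rcases eq_or_lt_of_le hb.1 with h | h
          · subst h; exact hxy
          · exact (hanti x b h hb.2).trans hxy
        have := Finset.card_le_card hsub
        rwa [Nat.card_Ico] at this
      have ht' : (L : ℤ) - x ≤ tA ρ L y := by omega
      have hc0 : (0 : ℤ) ≤ cA ρ L' y := by positivity
      nlinarith
  · by_cases hyL : y < L
    · rw [if_neg hxL, if_pos hyL]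
      have ht : tA ρ L x ≤ L - (y + 1) := by
        unfold tA
        have hsub : ((Finset.range L).filter fun b => ρ b < ρ x) ⊆ Finset.Ico (y + 1) L := by
          intro b hb
          rw [Finset.mem_filter, Finset.mem_range] at hb
          rw [Finset.mem_Ico]
          refine ⟨?_, hb.1⟩
          rcases lt_trichotomy b y with h | h | h
          · exact absurd (hanti b y h hyL) (by omega)
          · subst h; omega
          · omega
        have := Finset.card_le_card hsub
        rwa [Nat.card_Ico] at this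
      have ht' : (tA ρ L x : ℤ) ≤ L - (y + 1) := by omega
      nlinarith
    · rw [if_neg hxL, if_neg hyL]
      have ht : tA ρ L x ≤ tA ρ L y := by
        unfold tA
        apply Finset.card_le_card
        intro b hb
        rw [Finset.mem_filter] at hb ⊢
        exact ⟨hb.1, hb.2.trans hxy⟩
      have hc : cA ρ L' x < cA ρ L' y := by
        unfold cA
        apply Finset.card_lt_card
        rw [Finset.ssubset_iff_of_subset]
        · refine ⟨x, ?_, ?_⟩
          · rw [Finset.mem_filter, Finset.mem_range]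
            exact ⟨hx, hxy⟩
          · rw [Finset.mem_filter]
            rintro ⟨-, h⟩
            omega
        · intro b hb
          rw [Finset.mem_filter] at hb ⊢
          exact ⟨hb.1, hb.2.trans hxy⟩
      have ht' : (tA ρ L x : ℤ) ≤ tA ρ L y := by exact_mod_cast ht
      have hc' : (cA ρ L' x : ℤ) < cA ρ L' y := by exact_mod_cast hc
      nlinarith

theorem theta_le_iff {ρ : ℕ → ℕ} {L L' : ℕ}
    (hinj : ∀ b < L', ∀ c < L', ρ b = ρ c → b = c)
    (hanti : ∀ b c, b < c → c < L → ρ c < ρ b)
    {x y : ℕ} (hx : x < L') (hy : y < L') :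
    EA ρ L L' x + -((L' : ℤ) + 2) * x ≤ EA ρ L L' y + -((L' : ℤ) + 2) * y ↔ ρ x ≤ ρ y := by
  constructor
  · intro h
    by_contra h'
    have := theta_lt (L := L) hanti hy hx (not_le.1 h')
    omega
  · intro h
    rcases eq_or_lt_of_le h with h | h
    · rw [hinj x hx y hy h]
    · exact (theta_lt hanti hx hy h).le

theorem rk_eq {ρ : ℕ → ℕ} {L L' : ℕ} (hρ : ∀ b < L', ρ b < L')
    (hinj : ∀ b < L', ∀ c < L', ρ b = ρ c → b = c)
    (hanti : ∀ b c, b < c → c < L → ρ c < ρ b) {b : ℕ} (hb : b < L') :
    rk L' (EA ρ L L') (-((L' : ℤ) + 2)) b = ρ b := by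
  unfold rk
  have h1 : ((Finset.range L').filter fun c => c ≠ b ∧
      EA ρ L L' c + -((L' : ℤ) + 2) * c ≤ EA ρ L L' b + -((L' : ℤ) + 2) * b) =
      (Finset.range L').filter fun c => ρ c < ρ b := by
    apply Finset.filter_congr
    intro c hc
    rw [Finset.mem_range] at hc
    rw [theta_le_iff hinj hanti hc hb]
    constructor
    · rintro ⟨h1, h2⟩
      rcases eq_or_lt_of_le h2 with h | h
      · exact absurd (hinj c hc b hb h) h1
      · exact h
    · intro h
      exact ⟨by rintro rfl; omega, h.le⟩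
  rw [h1]
  have hmaps : ∀ c ∈ Finset.range L', ρ c ∈ Finset.range L' := by
    intro c hc
    rw [Finset.mem_range] at hc ⊢
    exact hρ c hc
  have hinj' : Set.InjOn ρ (Finset.range L' : Set ℕ) := by
    intro x hx y hy hxy
    rw [Finset.coe_range, Set.mem_Iio] at hx hy
    exact hinj x hx y hy hxy
  have himg : (Finset.range L').image ρ = Finset.range L' := by
    apply Finset.eq_of_subset_of_card_le
    · intro y hy
      rw [Finset.mem_image] at hy
      obtain ⟨x, hx, rfl⟩ := hy
      exact hmaps x hx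
    · rw [Finset.card_image_of_injOn hinj']
  have h2 : ((Finset.range L').filter fun c => ρ c < ρ b).image ρ = Finset.range (ρ b) := by
    ext y
    rw [Finset.mem_image, Finset.mem_range]
    constructor
    · rintro ⟨x, hx, rfl⟩
      rw [Finset.mem_filter] at hx
      exact hx.2
    · intro hy
      have hy' : y ∈ (Finset.range L').image ρ := by
        rw [himg, Finset.mem_range]
        exact hy.trans (hρ b hb)
      rw [Finset.mem_image] at hy'
      obtain ⟨x, hx, rfl⟩ := hy'
      exact ⟨x, Finset.mem_filter.2 ⟨hx, hy⟩, rfl⟩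
  have h3 := congrArg Finset.card h2
  rw [Finset.card_range, Finset.card_image_of_injOn] at h3
  · exact h3
  · intro x hx y hy hxy
    rw [Finset.mem_coe, Finset.mem_filter] at hx hy
    exact hinj' hx.1 hy.1 hxy

/-- T3 (StepA.lean) -/
theorem cert_stepA {m : ι → ℕ} {J : Finset ι} {j : ι} (hj : j ∉ J) {L L' : ℕ} (hL : L ≤ L')
    {D D' : ℕ → ℤ} (h : Cert m J L D') (ρ : ℕ → ℕ) (hρ : ∀ b < L', ρ b < L')
    (hinj : ∀ b < L', ∀ c < L', ρ b = ρ c → b = c)
    (hanti : ∀ b c, b < c → c < L → ρ c < ρ b)
    (h1 : ∀ b < L, D b ≤ D' b + ((m j - ρ b : ℕ) : ℤ))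
    (h2 : ∀ b, L ≤ b → b < L' → D b ≤ ((m j - ρ b : ℕ) : ℤ)) :
    Cert m (insert j J) L' D := by
  have key : Cert m (J ∪ {j}) L' D := by
    refine cert_scale (Finset.disjoint_singleton_right.2 hj) hL h (EA ρ L L')
      (fun _ => -((L' : ℤ) + 2)) ?_ ?_ ?_ ?_ ?_
    · intro b hb
      unfold EA
      rw [if_pos hb]
    · intro b hb _
      unfold EA
      rw [if_neg (by omega)]
      have : (0 : ℤ) ≤ (b : ℤ) - L + tA ρ L b := by
        have : (L : ℤ) ≤ b := by exact_mod_cast hb
        have h0 : (0 : ℤ) ≤ tA ρ L b := by positivity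
        linarith
      have h0 : (0 : ℤ) ≤ cA ρ L' b := by positivity
      positivity
    · intro _ _ b hb c hc hbc
      have e1 := (theta_le_iff (L := L) hinj hanti hb hc).1 hbc.le
      have e2 := (theta_le_iff (L := L) hinj hanti hc hb).1 hbc.ge
      exact hinj b hb c hc (le_antisymm e1 e2)
    · intro b hb
      rw [Finset.sum_singleton, rk_eq hρ hinj hanti (hb.trans_le hL)]
      exact h1 b hb
    · intro b hb hb'
      rw [Finset.sum_singleton, rk_eq hρ hinj hanti hb']
      have hnn : (0 : ℤ) ≤ ∑ j ∈ J, ((m j - (L' - 1) : ℕ) : ℤ) :=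
        Finset.sum_nonneg fun _ _ => by positivity
      have := h2 b hb hb'
      linarith
  rwa [Finset.union_comm, ← Finset.insert_eq] at key

end cert

end Pool.Agent.Lib.MP_6b2d39_agArr
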