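import Pool.Agent.Lib.MP_6b2d39_agArr.Defs
import Pool.Agent.Lib.MP_6b2d39_agArr.Scale

set_option autoImplicit false

namespace Pool.Agent.Lib.MP_6b2d39_agArr

section cert

variable {ι : Type} [DecidableEq ι]

/-- the comparison of the row `L` with the row `c` -/
theorem stepB_cmp {L k : ℕ} (hk : k ≤ L) {t : ℕ} :
    ((L + 1) * (L + 2) / (k + 1) + 1) * t < (L + 1) * (L + 2) ↔ t ≤ k := by
  set B := (L + 1) * (L + 2) with hB
  set q := B / (k + 1) with hq
  have h1 : q * (k + 1) ≤ B := Nat.div_mul_le_self B (k + 1)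
  have h2 : B < (q + 1) * (k + 1) := by
    have := Nat.lt_div_mul_add (a := B) (b := k + 1) (by omega)
    rw [← hq] at this
    linarith
  have h3 : k < q := by
    rw [hq, Nat.lt_div_iff_mul_lt (by omega)]
    have : k * (k + 1) ≤ L * (L + 1) := Nat.mul_le_mul hk (by omega)
    have h4 : (L + 1) * (L + 2) = L * (L + 1) + 2 * (L + 1) := by ring
    rw [hB, h4]
    omega
  constructor
  · intro h4
    by_contra h5
    have h6 : k + 1 ≤ t := by omega
    have := Nat.mul_le_mul_left (q + 1) h6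
    omega
  · intro h4
    calc (q + 1) * t ≤ (q + 1) * k := Nat.mul_le_mul_left _ h4
      _ = q * k + k := by ring
      _ < q * k + q := by omega
      _ = q * (k + 1) := by ring
      _ ≤ B := h1

theorem stepB_ne {L k : ℕ} (hk : k ≤ L) {t : ℕ} :
    ((L + 1) * (L + 2) / (k + 1) + 1) * t ≠ (L + 1) * (L + 2) := by
  intro h
  have h1 : ¬ t ≤ k := by
    rw [← stepB_cmp hk]
    omega
  set B := (L + 1) * (L + 2) with hB
  set q := B / (k + 1) with hq
  have h2 : B < (q + 1) * (k + 1) := by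
    have := Nat.lt_div_mul_add (a := B) (b := k + 1) (by omega)
    rw [← hq] at this
    linarith
  have h6 : k + 1 ≤ t := by omega
  have := Nat.mul_le_mul_left (q + 1) h6
  omega

/-- the level of the new row -/
def stepE (L : ℕ) (b : ℕ) : ℤ := if b = L then (((L + 1) * (L + 2) : ℕ) : ℤ) else 0

/-- the slope of a new point -/
def stepP (L k : ℕ) : ℤ := -(((L + 1) * (L + 2) / (k + 1) + 1 : ℕ) : ℤ)

theorem stepP_neg (L k : ℕ) : stepP L k < 0 := by
  unfold stepP
  rw [neg_lt_zero]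
  exact_mod_cast Nat.succ_pos _

theorem stepB_le_iff {L k : ℕ} (hk : k ≤ L) {c : ℕ} (hc : c < L) :
    (stepE L c + stepP L k * c ≤ stepE L L + stepP L k * L ↔ L - c ≤ k) ∧
    (stepE L L + stepP L k * L ≤ stepE L c + stepP L k * c ↔ ¬ L - c ≤ k) ∧
    (stepE L c + stepP L k * c ≠ stepE L L + stepP L k * L) := by
  have h1 := stepB_cmp hk (t := L - c)
  have h2 := stepB_ne hk (t := L - c)
  unfold stepE stepP
  rw [if_neg hc.ne, if_pos rfl]
  set B := (L + 1) * (L + 2) with hB
  set q := B / (k + 1) + 1 with hq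
  obtain ⟨t, ht⟩ : ∃ t, L = c + t := ⟨L - c, by omega⟩
  have h3 : L - c = t := by omega
  rw [h3] at h1 h2 ⊢
  have h4 : (L : ℤ) = c + t := by exact_mod_cast ht
  rw [h4, ← h1]
  zify at h2 ⊢
  refine ⟨?_, ?_, ?_⟩
  · constructor
    · intro h5
      have : (q : ℤ) * t ≤ B := by linarith
      exact lt_of_le_of_ne this h2
    · intro h5
      linarith
  · constructor
    · intro h5
      linarith
    · intro h5
      linarith
  · intro h5
    apply h2
    linarith

theorem rk_stepB_top {L k : ℕ} (hk : k ≤ L) : rk (L + 1) (stepE L) (stepP L k) L = k := by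
  unfold rk
  have : (Finset.range (L + 1)).filter (fun c => c ≠ L ∧ stepE L c + stepP L k * c ≤
      stepE L L + stepP L k * L) = Finset.Ico (L - k) L := by
    ext c
    rw [Finset.mem_filter, Finset.mem_range, Finset.mem_Ico]
    constructor
    · rintro ⟨h1, h2, h3⟩
      have h4 : c < L := by omega
      have := (stepB_le_iff hk h4).1.mp h3
      omega
    · rintro ⟨h1, h2⟩
      exact ⟨by omega, by omega, (stepB_le_iff hk h2).1.mpr (by omega)⟩
  rw [this, Nat.card_Ico]
  omega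

theorem rk_stepB {L k : ℕ} (hk : k ≤ L) {i : ℕ} (hi : 1 ≤ i) (hiL : i ≤ L) :
    rk (L + 1) (stepE L) (stepP L k) (L - i) = if i ≤ k then i - 1 else i := by
  unfold rk
  have hneg : stepP L k < 0 := stepP_neg L k
  have hcmp : ∀ c, c < L → (stepE L c + stepP L k * c ≤
      stepE L (L - i) + stepP L k * ((L - i : ℕ) : ℤ) ↔ L - i ≤ c) := by
    intro c hc
    unfold stepE
    rw [if_neg hc.ne, if_neg (by omega), zero_add, zero_add]
    constructor
    · intro h
      have := (mul_le_mul_left_of_neg hneg).mp h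
      exact_mod_cast this
    · intro h
      refine (mul_le_mul_left_of_neg hneg).mpr ?_
      exact_mod_cast h
  have h3 : L - (L - i) = i := by omega
  have htop := (stepB_le_iff hk (c := L - i) (by omega)).2.1
  rw [h3] at htop
  split_ifs with hik
  · have : (Finset.range (L + 1)).filter (fun c => c ≠ L - i ∧ stepE L c + stepP L k * c ≤
        stepE L (L - i) + stepP L k * ((L - i : ℕ) : ℤ)) = Finset.Ico (L - i + 1) L := by
      ext c
      rw [Finset.mem_filter, Finset.mem_range, Finset.mem_Ico]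
      constructor
      · rintro ⟨h1, h2, h3⟩
        rcases Nat.lt_or_ge c L with h4 | h4
        · have := (hcmp c h4).mp h3
          omega
        · have h5 : c = L := by omega
          rw [h5] at h3
          exact absurd hik (htop.mp h3)
      · rintro ⟨h1, h2⟩
        exact ⟨by omega, by omega, (hcmp c h2).mpr (by omega)⟩
    rw [this, Nat.card_Ico]
    omega
  · have : (Finset.range (L + 1)).filter (fun c => c ≠ L - i ∧ stepE L c + stepP L k * c ≤
        stepE L (L - i) + stepP L k * ((L - i : ℕ) : ℤ)) = Finset.Ico (L - i + 1) (L + 1) := by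
      ext c
      rw [Finset.mem_filter, Finset.mem_range, Finset.mem_Ico]
      constructor
      · rintro ⟨h1, h2, h3⟩
        rcases Nat.lt_or_ge c L with h4 | h4
        · have := (hcmp c h4).mp h3
          omega
        · omega
      · rintro ⟨h1, h2⟩
        refine ⟨h2, by omega, ?_⟩
        rcases Nat.lt_or_ge c L with h4 | h4
        · exact (hcmp c h4).mpr (by omega)
        · have h5 : c = L := by omega
          rw [h5]
          exact htop.mpr hik
    rw [this, Nat.card_Ico]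
    omega

/-- T4 (StepB.lean) -/
theorem cert_stepB {m : ι → ℕ} {J J0 : Finset ι} (hJ : Disjoint J J0) {L : ℕ}
    {D D' : ℕ → ℤ} (h : Cert m J L D') (κ : ι → ℕ) (hκ : ∀ j ∈ J0, κ j ≤ L)
    (h1 : ∀ i, 1 ≤ i → i ≤ L → D (L - i) ≤ D' (L - i) +
      ∑ j ∈ J0, ((m j - (if i ≤ κ j then i - 1 else i) : ℕ) : ℤ))
    (h2 : D L ≤ ∑ j ∈ J0, ((m j - κ j : ℕ) : ℤ) + ∑ j ∈ J, ((m j - L : ℕ) : ℤ)) :
    Cert m (J ∪ J0) (L + 1) D := by
  have hneg : ∀ k, stepP L k < 0 := stepP_neg L
  refine cert_scale hJ (Nat.le_succ L) h (stepE L) (fun j => stepP L (κ j)) ?_ ?_ ?_ ?_ ?_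
  · intro b hb
    unfold stepE
    rw [if_neg hb.ne]
  · intro b hb1 hb2
    have : b = L := by omega
    unfold stepE
    rw [if_pos this]
    positivity
  · intro j hj b hb c hc hbc
    rcases Nat.lt_or_ge b L with hb' | hb' <;> rcases Nat.lt_or_ge c L with hc' | hc'
    · unfold stepE at hbc
      rw [if_neg hb'.ne, if_neg hc'.ne, zero_add, zero_add] at hbc
      have := mul_left_cancel₀ (hneg _).ne hbc
      exact_mod_cast this
    · have hcL : c = L := by omega
      subst hcL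
      exact absurd hbc (stepB_le_iff (hκ j hj) hb').2.2
    · have hbL : b = L := by omega
      subst hbL
      exact absurd hbc.symm (stepB_le_iff (hκ j hj) hc').2.2
    · omega
  · intro b hb
    have h3 := h1 (L - b) (by omega) (by omega)
    have h4 : L - (L - b) = b := by omega
    rw [h4] at h3
    refine h3.trans (le_of_eq ?_)
    congr 1
    refine Finset.sum_congr rfl fun j hj => ?_
    have h5 := rk_stepB (hκ j hj) (i := L - b) (by omega) (by omega)
    rw [h4] at h5
    rw [h5]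
  · intro b hb1 hb2
    have hbL : b = L := by omega
    subst hbL
    refine h2.trans (le_of_eq ?_)
    rw [Nat.succ_sub_one]
    congr 1
    refine Finset.sum_congr rfl fun j hj => ?_
    rw [Nat.succ_eq_add_one, rk_stepB_top (hκ j hj)]

/-- T4' (StepB.lean) -/
theorem cert_of_hcert {m : ι → ℕ} {μ : ℕ} {J : Finset ι} (hJ : ∀ j ∈ J, m j = μ) {n : ℕ}
    {D : ℕ → ℤ} (h : HCert μ J.card n D) : Cert m J n D := by
  obtain ⟨e, p, hp⟩ := h
  refine ⟨e, fun j => if hj : j ∈ J then p (J.equivFin ⟨j, hj⟩) else 0, fun b hb => ?_⟩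
  refine (hp b hb).trans (le_of_eq ?_)
  rw [← Finset.sum_coe_sort J, ← J.equivFin.sum_comp]
  refine Finset.sum_congr rfl fun x _ => ?_
  simp only [dif_pos x.2, hJ x x.2]

end cert

theorem hcert_of_cert {ι : Type} {μ : ℕ} {J : Finset ι} {n : ℕ} {D : ℕ → ℤ}
    (h : Cert (fun _ : ι => μ) J n D) : HCert μ J.card n D := by
  obtain ⟨e, p, hp⟩ := h
  refine ⟨e, fun k => p (J.equivFin.symm k), fun b hb => ?_⟩
  refine (hp b hb).trans (le_of_eq ?_)
  rw [← Finset.sum_coe_sort J, ← J.equivFin.symm.sum_comp]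

/-- T4'' (StepB.lean) -/
theorem hcert_one {μ K : ℕ} {D : ℕ → ℤ} (h : D 0 ≤ K * μ) : HCert μ K 1 D := by
  refine ⟨0, 0, fun b hb => ?_⟩
  have hb0 : b = 0 := by omega
  subst hb0
  have h1 : rk 1 0 0 0 = 0 := by
    unfold rk
    simp
  refine h.trans (le_of_eq ?_)
  simp [h1]

/-- T4''' (StepB.lean) -/
theorem hcert_step {μ K L U k₁ k₂ : ℕ} (hU : 2 ≤ U) (hk₁ : k₁ ≤ L) (hk₂ : k₂ ≤ L)
    (hk₁' : k₁ ≤ μ) (hk₂' : k₂ ≤ μ) {D D' : ℕ → ℤ} (h : HCert μ K L D')
    (h1 : ∀ i, 1 ≤ i → i ≤ L → D (L - i) ≤ D' (L - i) +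
      ((U : ℤ) * ((μ - i : ℕ) : ℤ) + (if i ≤ k₁ then 1 else 0) + (if i ≤ k₂ then 1 else 0)))
    (h2 : D L ≤ (U : ℤ) * μ - k₁ - k₂ + K * ((μ - L : ℕ) : ℤ)) :
    HCert μ (K + U) (L + 1) D := by
  classical
  obtain ⟨V, rfl⟩ : ∃ V, U = V + 2 := ⟨U - 2, by omega⟩
  set J : Finset (Fin K ⊕ Fin (V + 2)) := Finset.univ.map ⟨Sum.inl, Sum.inl_injective⟩ with hJ
  set J0 : Finset (Fin K ⊕ Fin (V + 2)) := Finset.univ.map ⟨Sum.inr, Sum.inr_injective⟩ with hJ0
  have hdisj : Disjoint J J0 := by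
    rw [Finset.disjoint_left]
    intro x hx hx0
    rw [hJ, Finset.mem_map] at hx
    rw [hJ0, Finset.mem_map] at hx0
    obtain ⟨a, _, rfl⟩ := hx
    obtain ⟨b, _, hb⟩ := hx0
    simp at hb
  have hcJ : J.card = K := by rw [hJ, Finset.card_map, Finset.card_univ, Fintype.card_fin]
  have hcJ0 : J0.card = V + 2 := by rw [hJ0, Finset.card_map, Finset.card_univ, Fintype.card_fin]
  set κ : Fin K ⊕ Fin (V + 2) → ℕ :=
    Sum.elim (fun _ => 0) (fun u => if u = 0 then k₁ else if u = 1 then k₂ else 0) with hκ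
  have hc : Cert (fun _ : Fin K ⊕ Fin (V + 2) => μ) J L D' :=
    cert_of_hcert (fun _ _ => rfl) (by rw [hcJ]; exact h)
  have hsum : ∀ f : ℕ → ℤ, ∑ j ∈ J0, f (κ j) = f k₁ + f k₂ + V * f 0 := by
    intro f
    rw [hJ0, Finset.sum_map, hκ]
    simp only [Function.Embedding.coeFn_mk, Sum.elim_inr]
    rw [Fin.sum_univ_succ, Fin.sum_univ_succ]
    have h5 : ∀ i : Fin V, f (if (Fin.succ (Fin.succ i) : Fin (V + 2)) = 0 then k₁ else
        if (Fin.succ (Fin.succ i) : Fin (V + 2)) = 1 then k₂ else 0) = f 0 := by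
      intro i
      rw [if_neg (Fin.succ_ne_zero _), if_neg]
      intro h6
      have := congrArg Fin.val h6
      simp at this
    simp only [h5]
    rw [Finset.sum_const, Finset.card_univ, Fintype.card_fin, nsmul_eq_mul]
    simp
    ring
  have key := cert_stepB hdisj hc κ (D := D) ?_ ?_ ?_
  · have h3 := hcert_of_cert key
    rwa [Finset.card_union_of_disjoint hdisj, hcJ, hcJ0] at h3
  · intro j hj
    rw [hJ0, Finset.mem_map] at hj
    obtain ⟨u, _, rfl⟩ := hj
    rw [hκ]
    simp only [Function.Embedding.coeFn_mk, Sum.elim_inr]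
    split_ifs <;> omega
  · intro i hi hiL
    refine (h1 i hi hiL).trans ?_
    rw [hsum (fun k => ((μ - (if i ≤ k then i - 1 else i) : ℕ) : ℤ))]
    have e1 : ∀ k, k ≤ μ → ((μ - (if i ≤ k then i - 1 else i) : ℕ) : ℤ) =
        ((μ - i : ℕ) : ℤ) + (if i ≤ k then 1 else 0) := by
      intro k hk
      split_ifs with h4
      · omega
      · simp
    rw [e1 _ hk₁', e1 _ hk₂', e1 0 (Nat.zero_le _), if_neg (by omega : ¬ i ≤ 0)]
    push_cast
    apply le_of_eq
    ring
  · rw [hsum (fun k => ((μ - k : ℕ) : ℤ)), Finset.sum_const, hcJ, nsmul_eq_mul,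
      Nat.cast_sub hk₁', Nat.cast_sub hk₂', Nat.sub_zero]
    refine h2.trans (le_of_eq ?_)
    push_cast
    ring

end Pool.Agent.Lib.MP_6b2d39_agArr
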